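import Mathlib

/-! The number of zero patterns of polynomials (Rónyai, Babai, Ganapathy), at points over different
extension fields. -/

set_option autoImplicit false

namespace Pool.Agent.TH680.BSK

open MvPolynomial

universe u

open Classical in
/-- Zero patterns of the polynomials in `F` at points over extension fields of `𝔽`: there are few. -/
theorem zero_patterns {𝔽 : Type} [Field 𝔽] {n : ℕ} (F : Finset (MvPolynomial (Fin n) 𝔽)) (D : ℕ)
    (hD : ∀ f ∈ F, f.totalDegree ≤ D) (P : Finset (Finset (MvPolynomial (Fin n) 𝔽)))
    (hP : ∀ S ∈ P, ∃ (K : Type u) (_ : Field K) (_ : Algebra 𝔽 K) (c : Fin n → K),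
      S = F.filter (fun f => aeval c f ≠ 0)) :
    P.card ≤ (F.card * D + 1) ^ n := by
  set g : Finset (MvPolynomial (Fin n) 𝔽) → MvPolynomial (Fin n) 𝔽 := fun S => ∏ f ∈ S, f with hg
  set T : Finset (Fin n →₀ ℕ) := (Finset.univ : Finset (Fin n → Fin (F.card * D + 1))).image
    (fun e => Finsupp.equivFunOnFinite.symm (fun i => (e i : ℕ))) with hT
  have hTc : T.card ≤ (F.card * D + 1) ^ n := by
    refine Finset.card_image_le.trans ?_
    simp
  have hsub : ∀ S ∈ P, S ⊆ F := by
    intro S hS
    obtain ⟨K, _, _, c, rfl⟩ := hP S hS
    exact Finset.filter_subset _ _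
  have hsupp : ∀ S ∈ P, ∀ t, t ∉ T → coeff t (g S) = 0 := by
    intro S hS t ht
    by_contra hcon
    apply ht
    have h1 : t ∈ (g S).support := by rwa [mem_support_iff]
    have h2 : (g S).totalDegree ≤ F.card * D := by
      refine (totalDegree_finsetProd _ _).trans ?_
      refine (Finset.sum_le_card_nsmul _ _ D fun f hf => hD f (hsub S hS hf)).trans ?_
      rw [smul_eq_mul]
      exact Nat.mul_le_mul_right _ (Finset.card_le_card (hsub S hS))
    have h3 : ∀ i, t i ≤ F.card * D := by
      intro i
      have h4 := le_totalDegree h1
      refine le_trans ?_ (h4.trans h2)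
      rw [Finsupp.sum]
      by_cases hi : i ∈ t.support
      · exact Finset.single_le_sum (f := fun a => t a) (fun _ _ => Nat.zero_le _) hi
      · rw [Finsupp.notMem_support_iff.1 hi]
        exact Nat.zero_le _
    rw [hT, Finset.mem_image]
    refine ⟨fun i => ⟨t i, by have := h3 i; omega⟩, Finset.mem_univ _, ?_⟩
    ext i
    simp
  have hlin : LinearIndependent 𝔽 (fun (S : P) (t : T) => coeff t.1 (g S.1)) := by
    rw [Fintype.linearIndependent_iff]
    intro l hl
    have hq : ∑ S : P, C (l S) * g S.1 = 0 := by
      ext t
      rw [coeff_sum, coeff_zero]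
      simp only [coeff_C_mul]
      by_cases ht : t ∈ T
      · have h1 := congrFun hl ⟨t, ht⟩
        simpa [Finset.sum_apply] using h1
      · exact Finset.sum_eq_zero fun S _ => by rw [hsupp S.1 S.2 t ht, mul_zero]
    have hmain : ∀ (N : ℕ) (S : P), S.1.card = N → l S = 0 := by
      intro N
      induction N using Nat.strong_induction_on with
      | _ N ih =>
        intro S hN
        obtain ⟨K, _, _, c, hc⟩ := hP S.1 S.2
        have h1 := congrArg (aeval c) hq
        rw [map_sum, map_zero, Finset.sum_eq_single S] at h1
        · rw [map_mul, aeval_C, hg, map_prod] at h1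
          rcases mul_eq_zero.1 h1 with h2 | h2
          · exact (map_eq_zero _).1 h2
          · exfalso
            rw [Finset.prod_eq_zero_iff] at h2
            obtain ⟨f, hf, h3⟩ := h2
            rw [hc, Finset.mem_filter] at hf
            exact hf.2 h3
        · intro S' _ hne
          by_cases hss : S'.1 ⊆ S.1
          · have h2 : S'.1.card < N := by
              rw [← hN]
              refine Finset.card_lt_card (hss.ssubset_of_ne fun h => hne (Subtype.ext h))
            rw [ih _ h2 S' rfl]
            simp
          · rw [Finset.not_subset] at hss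
            obtain ⟨f, hf, hf'⟩ := hss
            have h2 : aeval c f = 0 := by
              by_contra h3
              apply hf'
              rw [hc, Finset.mem_filter]
              exact ⟨hsub _ S'.2 hf, h3⟩
            rw [map_mul, hg, map_prod, Finset.prod_eq_zero hf h2, mul_zero]
        · intro h
          exact absurd (Finset.mem_univ _) h
    exact fun S => hmain _ S rfl
  have h1 := hlin.fintype_card_le_finrank
  rw [Module.finrank_fintype_fun_eq_card, Fintype.card_coe, Fintype.card_coe] at h1
  exact h1.trans hTc

end Pool.Agent.TH680.BSK
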