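import Pool.Agent.TH680.BSK.Sym
import Pool.Agent.TH680.BSK.ZP

/-! Few behaviours, for all constants and all advice. -/

set_option autoImplicit false

namespace Pool.Agent.TH680.BSK

open Pool.Agent.TH680.BSS MvPolynomial

universe u

variable {𝔽 : Type} [Field 𝔽]

variable {k : ℕ}

open Classical in
theorem card_pol {m : ℕ} (M : Fin m → Instr (Fin k) m) : ∀ (t : ℕ) (q : Fin m) (σ : ℤ → SyK 𝔽 k)
    (V : Finset (SyK 𝔽 k)), (polK M t q σ V).card ≤ 8 ^ t * (V.card + 1) := by
  intro t
  induction t with
  | zero => intro q σ V; simp [polK]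
  | succ t ih =>
    intro q σ V
    have h8 : 1 ≤ 8 ^ t := Nat.one_le_pow _ _ (by norm_num)
    have hp : 8 ^ (t + 1) * (V.card + 1) = 8 * (8 ^ t * (V.card + 1)) := by ring
    have hb : V.card + 1 ≤ 8 ^ t * (V.card + 1) := Nat.le_mul_of_pos_left _ h8
    have hi : ∀ s : SyK 𝔽 k, 8 ^ t * ((insert s V).card + 1) ≤ 2 * (8 ^ t * (V.card + 1)) := by
      intro s
      have := Finset.card_insert_le s V
      calc 8 ^ t * ((insert s V).card + 1) ≤ 8 ^ t * (2 * (V.card + 1)) :=
            Nat.mul_le_mul_left _ (by omega)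
        _ = 2 * (8 ^ t * (V.card + 1)) := by ring
    rw [hp, polK]
    cases M q with
    | op o i j l q' =>
      simp only
      have e1 := ih q' (Function.update σ i (sop0K o (σ j))) (insert (sop0K o (σ j)) V)
      have e2 := ih q' (Function.update σ i (sopK o (σ j) (σ l))) (insert (sopK o (σ j) (σ l)) V)
      have e3 := hi (sop0K o (σ j))
      have e4 := hi (sopK o (σ j) (σ l))
      have e5 := Finset.card_insert_le (σ l).1
        (polK M t q' (Function.update σ i (sop0K o (σ j))) (insert (sop0K o (σ j)) V) ∪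
          polK M t q' (Function.update σ i (sopK o (σ j) (σ l))) (insert (sopK o (σ j) (σ l)) V))
      have e6 := Finset.card_union_le
        (polK M t q' (Function.update σ i (sop0K o (σ j))) (insert (sop0K o (σ j)) V))
        (polK M t q' (Function.update σ i (sopK o (σ j) (σ l))) (insert (sopK o (σ j) (σ l)) V))
      omega
    | const a i q' =>
      simp only
      have e1 := ih q' (Function.update σ i (X a, 1)) (insert (X a, 1) V)
      have e3 := hi (X a, 1)
      omega
    | copy i j q' =>
      simp only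
      have e1 := ih q' (Function.update σ i (σ j)) V
      omega
    | shift s q' =>
      simp only
      have e1 := ih q' (fun z => σ (z + s)) V
      omega
    | test i yes no =>
      simp only
      have e1 := ih yes σ V
      have e2 := ih no σ V
      have e5 := Finset.card_insert_le (σ i).1 (polK M t yes σ V ∪ polK M t no σ V)
      have e6 := Finset.card_union_le (polK M t yes σ V) (polK M t no σ V)
      omega
    | ask b yes no =>
      simp only
      have e1 := ih yes σ V
      have e2 := ih no σ V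
      have e5 := Finset.card_union_le (V.image (fun s => s.1) ∪ V.image (fun s => s.1 - s.2))
        (polK M t yes σ V ∪ polK M t no σ V)
      have e6 := Finset.card_union_le (polK M t yes σ V) (polK M t no σ V)
      have e7 := Finset.card_union_le (V.image (fun s : SyK 𝔽 k => s.1))
        (V.image (fun s : SyK 𝔽 k => s.1 - s.2))
      have e8 : (V.image (fun s : SyK 𝔽 k => s.1)).card ≤ V.card := Finset.card_image_le
      have e9 : (V.image (fun s : SyK 𝔽 k => s.1 - s.2)).card ≤ V.card := Finset.card_image_le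
      omega
    | halt b => simp

/-- the degrees are at most `D` -/
def Dg (D : ℕ) (V : Finset (SyK 𝔽 k)) : Prop := ∀ s ∈ V, s.1.totalDegree ≤ D ∧ s.2.totalDegree ≤ D

theorem dg_sopK {D : ℕ} (o : Op) {s s' : SyK 𝔽 k} (h : s.1.totalDegree ≤ D ∧ s.2.totalDegree ≤ D)
    (h' : s'.1.totalDegree ≤ D ∧ s'.2.totalDegree ≤ D) :
    (sopK o s s').1.totalDegree ≤ 2 * D ∧ (sopK o s s').2.totalDegree ≤ 2 * D := by
  have hm : ∀ a b : MvPolynomial (Fin k) 𝔽, a.totalDegree ≤ D → b.totalDegree ≤ D →
      (a * b).totalDegree ≤ 2 * D := fun a b ha hb =>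
    (totalDegree_mul a b).trans (by omega)
  cases o <;> simp only [sopK]
  · exact ⟨(totalDegree_add _ _).trans (max_le (hm _ _ h.1 h'.2) (hm _ _ h'.1 h.2)),
      hm _ _ h.2 h'.2⟩
  · exact ⟨(totalDegree_sub _ _).trans (max_le (hm _ _ h.1 h'.2) (hm _ _ h'.1 h.2)),
      hm _ _ h.2 h'.2⟩
  · exact ⟨hm _ _ h.1 h'.1, hm _ _ h.2 h'.2⟩
  · exact ⟨hm _ _ h.1 h'.2, hm _ _ h.2 h'.1⟩

theorem dg_sop0K {D : ℕ} (o : Op) {s : SyK 𝔽 k} (h : s.1.totalDegree ≤ D ∧ s.2.totalDegree ≤ D) :
    (sop0K o s).1.totalDegree ≤ 2 * D ∧ (sop0K o s).2.totalDegree ≤ 2 * D := by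
  cases o <;> simp only [sop0K]
  · omega
  · omega
  · simp
  · simp

open Classical in
theorem deg_pol {m : ℕ} (M : Fin m → Instr (Fin k) m) : ∀ (t : ℕ) (q : Fin m) (σ : ℤ → SyK 𝔽 k)
    (V : Finset (SyK 𝔽 k)) (D : ℕ), 1 ≤ D → (∀ z, σ z ∈ V) → Dg D V →
      ∀ f ∈ polK M t q σ V, f.totalDegree ≤ 2 ^ t * D := by
  intro t
  induction t with
  | zero => intro q σ V D _ _ _ f hf; simp [polK] at hf
  | succ t ih =>
    intro q σ V D hD hσ hV f hf
    have hp : 2 ^ (t + 1) * D = 2 ^ t * (2 * D) := by ring
    have h2 : 1 ≤ 2 ^ t := Nat.one_le_two_pow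
    have hb : 2 * D ≤ 2 ^ t * (2 * D) := Nat.le_mul_of_pos_left _ h2
    have hmono : Dg (2 * D) V := fun s hs => ⟨(hV s hs).1.trans (by omega),
      (hV s hs).2.trans (by omega)⟩
    have hins : ∀ s : SyK 𝔽 k, s.1.totalDegree ≤ 2 * D ∧ s.2.totalDegree ≤ 2 * D →
        Dg (2 * D) (insert s V) := by
      intro s hs s' hs'
      rcases Finset.mem_insert.1 hs' with rfl | h
      · exact hs
      · exact hmono s' h
    have hm : ∀ a b : MvPolynomial (Fin k) 𝔽, a.totalDegree ≤ D → b.totalDegree ≤ D →
        (a * b).totalDegree ≤ 2 * D := fun a b ha hb =>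
      (totalDegree_mul a b).trans (by omega)
    rw [hp]
    rw [polK] at hf
    cases hq : M q with
    | op o i j l q' =>
      rw [hq] at hf
      simp only at hf
      rcases Finset.mem_insert.1 hf with rfl | hf
      · exact ((hV _ (hσ l)).1.trans (by omega)).trans hb
      · rcases Finset.mem_union.1 hf with hf | hf
        · exact ih q' _ _ _ (by omega) (mem_update hσ i _) (hins _ (dg_sop0K o (hV _ (hσ j)))) f hf
        · exact ih q' _ _ _ (by omega) (mem_update hσ i _)
            (hins _ (dg_sopK o (hV _ (hσ j)) (hV _ (hσ l)))) f hf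
    | const a i q' =>
      rw [hq] at hf
      simp only at hf
      refine ih q' _ _ _ (by omega) (mem_update hσ i _) (hins _ ⟨?_, ?_⟩) f hf
      · exact (totalDegree_X (R := 𝔽) a).le.trans (by omega)
      · simp
    | copy i j q' =>
      rw [hq] at hf
      simp only at hf
      refine ih q' _ _ _ (by omega) (fun z => ?_) hmono f hf
      by_cases hz : z = i
      · subst hz
        rw [Function.update_self]
        exact hσ j
      · rw [Function.update_of_ne hz]
        exact hσ z
    | shift s q' =>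
      rw [hq] at hf
      simp only at hf
      exact ih q' _ _ _ (by omega) (fun z => hσ _) hmono f hf
    | test i yes no =>
      rw [hq] at hf
      simp only at hf
      rcases Finset.mem_insert.1 hf with rfl | hf
      · exact ((hV _ (hσ i)).1.trans (by omega)).trans hb
      · rcases Finset.mem_union.1 hf with hf | hf
        · exact ih yes _ _ _ (by omega) hσ hmono f hf
        · exact ih no _ _ _ (by omega) hσ hmono f hf
    | ask b yes no =>
      rw [hq] at hf
      simp only at hf
      rcases Finset.mem_union.1 hf with hf | hf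
      · rcases Finset.mem_union.1 hf with hf | hf
        · obtain ⟨s, hs, rfl⟩ := Finset.mem_image.1 hf
          exact ((hV s hs).1.trans (by omega)).trans hb
        · obtain ⟨s, hs, rfl⟩ := Finset.mem_image.1 hf
          exact ((totalDegree_sub _ _).trans (max_le (hV s hs).1 (hV s hs).2)).trans
            ((by omega : D ≤ 2 * D).trans hb)
      · rcases Finset.mem_union.1 hf with hf | hf
        · exact ih yes _ _ _ (by omega) hσ hmono f hf
        · exact ih no _ _ _ (by omega) hσ hmono f hf
    | halt b =>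
      rw [hq] at hf
      simp at hf

variable {m : ℕ}

/-- renaming of the constants -/
def ren (K : ℕ) : Instr (Fin k) m → Instr (Fin (k + K)) m
  | .op o i j l q' => .op o i j l q'
  | .const a i q' => .const (Fin.castAdd K a) i q'
  | .copy i j q' => .copy i j q'
  | .shift s q' => .shift s q'
  | .test i yes no => .test i yes no
  | .ask b yes no => .ask b yes no
  | .halt b => .halt b

theorem run_ren {E : Type u} [Field E] (K : ℕ) (d : Fin (k + K) → E)
    (M : Fin m → Instr (Fin k) m) (O : Bool → List Bool → Bool) : ∀ (t : ℕ) (q : Fin m)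
    (x : ℤ → E), run d O (fun q => ren K (M q)) t q x = run (fun i => d (Fin.castAdd K i)) O M t q x := by
  classical
  intro t
  induction t with
  | zero => intro q x; rfl
  | succ t ih =>
    intro q x
    rw [run, run]
    cases hq : M q with
    | op o i j l q' => simp only [ren]; exact ih _ _
    | const a i q' => simp only [ren]; exact ih _ _
    | copy i j q' => simp only [ren]; exact ih _ _
    | shift s q' => simp only [ren]; exact ih _ _
    | test i yes no => simp only [ren]; exact if_congr Iff.rfl (ih _ _) (ih _ _)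
    | ask b yes no => simp only [ren]; exact if_congr Iff.rfl (ih _ _) (ih _ _)
    | halt b => simp only [ren]

/-- the symbolic sequence which contains the vector `l` -/
noncomputable def plS (l : List (SyK 𝔽 k)) (z : ℤ) : SyK 𝔽 k :=
  if 1 ≤ z then (l.flatMap (fun a => [(C 1, 1), a])).getD (z - 1).toNat (C 0, 1) else (C 0, 1)

theorem vl_plS {E : Type u} [Field E] [Algebra 𝔽 E] (c : Fin k → E) (l : List (SyK 𝔽 k)) (z : ℤ) :
    vlK c (plS l z) = place (l.map (vlK c)) z := by
  have h0 : vlK c ((C 0, 1) : SyK 𝔽 k) = 0 := by simp [vlK]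
  have h1 : vlK c ((C 1, 1) : SyK 𝔽 k) = 1 := by simp [vlK]
  unfold place plS
  split_ifs with h
  · have h2 : (l.map (vlK c)).flatMap (fun a => [1, a]) =
        (l.flatMap (fun a => [(C 1, 1), a])).map (vlK c) := by
      clear h
      induction l with
      | nil => rfl
      | cons a l ih =>
        simp only [List.map_cons, List.flatMap_cons, List.map_append, List.map_nil, h1, ih]
    rw [h2, List.getD_eq_getElem?_getD, List.getD_eq_getElem?_getD, List.getElem?_map]
    cases (l.flatMap (fun a => [(C 1, 1), a]))[(z - 1).toNat]? with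
    | none => exact h0
    | some a => rfl
  · exact h0

open Classical in
/-- the values at the beginning -/
noncomputable def V1 (𝔽 : Type) [Field 𝔽] (k K : ℕ) : Finset (SyK 𝔽 (k + K)) :=
  insert (C 0, 1) (insert (C 1, 1)
    (Finset.univ.image (fun j : Fin K => ((X (Fin.natAdd k j), 1) : SyK 𝔽 (k + K)))))

/-- the input `w` with the advice -/
noncomputable def lst (𝔽 : Type) [Field 𝔽] (k K : ℕ) (w : List Bool) : List (SyK 𝔽 (k + K)) :=
  w.map (fun b => (C (bit 𝔽 b), 1)) ++ List.ofFn (fun j : Fin K => (X (Fin.natAdd k j), 1))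

theorem v1_card (𝔽 : Type) [Field 𝔽] (k K : ℕ) : (V1 𝔽 k K).card ≤ K + 2 := by
  classical
  unfold V1
  have h1 := Finset.card_image_le (s := (Finset.univ : Finset (Fin K)))
    (f := fun j : Fin K => ((X (Fin.natAdd k j), 1) : SyK 𝔽 (k + K)))
  rw [Finset.card_univ, Fintype.card_fin] at h1
  refine (Finset.card_insert_le _ _).trans ?_
  have h2 := Finset.card_insert_le ((C 1, 1) : SyK 𝔽 (k + K))
    (Finset.univ.image (fun j : Fin K => ((X (Fin.natAdd k j), 1) : SyK 𝔽 (k + K))))
  omega

theorem v1_den {E : Type u} [Field E] [Algebra 𝔽 E] (k K : ℕ) (c : Fin (k + K) → E) : ∀ s ∈ V1 𝔽 k K, aeval c s.2 ≠ 0 := by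
  intro s hs
  unfold V1 at hs
  simp only [Finset.mem_insert, Finset.mem_image, Finset.mem_univ, true_and] at hs
  rcases hs with rfl | rfl | ⟨j, rfl⟩ <;> simp

theorem v1_dg (𝔽 : Type) [Field 𝔽] (k K : ℕ) : Dg 1 (V1 𝔽 k K) := by
  intro s hs
  unfold V1 at hs
  simp only [Finset.mem_insert, Finset.mem_image, Finset.mem_univ, true_and] at hs
  rcases hs with rfl | rfl | ⟨j, rfl⟩
  · simp
  · simp
  · exact ⟨(totalDegree_X (R := 𝔽) _).le, by simp⟩

theorem plS_mem (𝔽 : Type) [Field 𝔽] (k K : ℕ) (w : List Bool) (z : ℤ) : plS (lst 𝔽 k K w) z ∈ V1 𝔽 k K := by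
  have h0 : ((C 0, 1) : SyK 𝔽 (k + K)) ∈ V1 𝔽 k K := by simp [V1]
  have h1 : ((C 1, 1) : SyK 𝔽 (k + K)) ∈ V1 𝔽 k K := by simp [V1]
  have hl : ∀ s ∈ lst 𝔽 k K w, s ∈ V1 𝔽 k K := by
    intro s hs
    unfold lst at hs
    rw [List.mem_append, List.mem_map, List.mem_ofFn] at hs
    rcases hs with ⟨b, _, rfl⟩ | ⟨j, rfl⟩
    · cases b
      · simpa [bit] using h0
      · simpa [bit] using h1
    · simp [V1]
  unfold plS
  split_ifs with h
  · rw [List.getD_eq_getElem?_getD]
    cases h2 : ((lst 𝔽 k K w).flatMap (fun a => [(C 1, 1), a]))[(z - 1).toNat]? with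
    | none => exact h0
    | some a =>
      have h3 := List.mem_of_getElem? h2
      rw [List.mem_flatMap] at h3
      obtain ⟨y, hy, ha⟩ := h3
      simp only [List.mem_cons, List.not_mem_nil, or_false] at ha
      rcases ha with rfl | rfl
      · exact h1
      · exact hl _ hy
  · exact h0

theorem vl_bit {E : Type u} [Field E] [Algebra 𝔽 E] {n : ℕ} (d : Fin n → E) (b : Bool) :
    vlK d ((C (bit 𝔽 b), 1) : SyK 𝔽 n) = bit E b := by
  cases b <;> simp [vlK, bit]

theorem vl_lst {E : Type u} [Field E] [Algebra 𝔽 E] (K : ℕ) (d : Fin (k + K) → E)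
    (w : List Bool) :
    (lst 𝔽 k K w).map (vlK d) = w.map (bit E) ++ List.ofFn (fun j => d (Fin.natAdd k j)) := by
  unfold lst
  rw [List.map_append, List.map_map, List.map_ofFn]
  congr 1
  · exact List.map_congr_left fun b _ => vl_bit d b
  · congr 1
    funext j
    simp [vlK]


end Pool.Agent.TH680.BSK
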