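import Pool.Agent.TH680.BSK.Ver
import Pool.Agent.TH680.BSK.Reps
import Pool.Agent.TH680.BSR.AdvLaw

/-! The separation over all fields, for machines with advice. -/

set_option autoImplicit false

namespace Pool.Agent.TH680.BSK

open MeasureTheory Pool.Agent.W900.IE Pool.Agent.W900.PS Pool.Agent.W900 Pool.Agent.TH680.SE
  Pool.Agent.H620R2.Gauge Pool.Agent.H591R3.PHG Pool.Agent.TH680.BSS MvPolynomial
open Pool.Agent.TH680.BSR (insR pf grR card_pf card_grR mem_grR grR_disj all_right Right boundX)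

universe u v

variable {k m : ℕ}

section

variable {K : Type u} [Field K]

/-- the answer for the instance `v` is right; the run starts with the sequence `x₀ v` -/
def RtK (c : Fin k → K) (S : Fin (m + 1) → Instr (Fin k) (m + 1)) (Q A : List Bool → Bool)
    (T j : ℕ) (x₀ : List Bool → ℤ → K) (v : List Bool) : Prop :=
  run c (two Q A) S T 0 (x₀ v) = some false ↔
    ∀ w : List Bool, w.length = 2 * j + 1 → ¬ ∀ z ∈ grR j v w, A z = true

open Classical in
theorem prob_rightK (c : Fin k → K) (S : Fin (m + 1) → Instr (Fin k) (m + 1))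
    (Q : List Bool → Bool) {T j : ℕ} (hT : 2 * T ≤ 2 ^ (2 * j + 1)) (x₀ : List Bool → ℤ → K) :
    (indep (fun _ => half)).real {A | ∀ v : List Bool, v.length = j → RtK c S Q A T j x₀ v} ≤
      (1 - 1 / 1024) ^ (2 ^ j / (T + 1)) := by
  have hfin : ∀ v : List Bool, ∃ F : Finset (List Bool), ∀ A,
      qK c Q A S T 0 (x₀ v) ⊆ F := fun v => qK_fin c Q S T 0 _
  choose F hF using hfin
  have h := all_right (fun _ => half) (W := DT.strs (2 * j + 1)) (g := grR j)
    (t := fun _ => true)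
    (Acc := fun v => {A | v.length = j ∧ run c (two Q A) S T 0 (x₀ v) = some false})
    (qs := fun v A => if v.length = j then qK c Q A S T 0 (x₀ v) else ∅)
    (by
      intro v A A' hA
      by_cases hv : v.length = j
      · simp only [if_pos hv] at hA ⊢
        obtain ⟨e1, e2⟩ := qK_stab c Q A A' S T 0 _ hA
        refine ⟨e1, ?_⟩
        rw [Set.mem_ofPred_eq, Set.mem_ofPred_eq, e2]
      · simp only [if_neg hv, true_and]
        rw [Set.mem_ofPred_eq, Set.mem_ofPred_eq]
        exact ⟨fun h => absurd h.1 hv, fun h => absurd h.1 hv⟩)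
    (F := (DT.strs j).biUnion F)
    (by
      intro v A
      by_cases hv : v.length = j
      · simp only [if_pos hv]
        exact (hF v A).trans (Finset.subset_biUnion_of_mem F (DT.mem_strs.2 hv))
      · simp only [if_neg hv]
        exact Finset.empty_subset _)
    (π := (1 / 2) ^ (2 * j + 2)) (by positivity)
    (by
      intro v w hw w' hw' hne
      exact grR_disj rfl ((DT.mem_strs.1 hw).trans (DT.mem_strs.1 hw').symm) fun h => hne h.2)
    (by
      intro v w _
      have h1 : ∀ z ∈ grR j v w, ber ((half : unitInterval) : ℝ) true = 1 / 2 := by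
        intro z _
        simp [ber, half]
      rw [Finset.prod_congr rfl h1, Finset.prod_const, card_grR])
    (by
      rw [card_strs]
      push_cast
      rw [show 2 * j + 2 = (2 * j + 1) + 1 from rfl, pow_succ (1 / 2 : ℝ), ← mul_assoc, ← mul_pow]
      norm_num)
    (T := T)
    (by
      intro v A
      by_cases hv : v.length = j
      · simp only [if_pos hv]
        exact qK_card _ _ _ _ _ _ _
      · simp only [if_neg hv]
        simp)
    (by rw [card_strs]; exact hT)
    (vs := (DT.strs j).toList) (Finset.nodup_toList _)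
    (by
      intro v hv v' hv' hne
      rw [Finset.mem_toList, DT.mem_strs] at hv hv'
      rw [Finset.disjoint_left]
      intro z hz hz'
      obtain ⟨w, hw, h1⟩ := Finset.mem_biUnion.1 hz
      obtain ⟨w', hw', h2⟩ := Finset.mem_biUnion.1 hz'
      exact Finset.disjoint_left.1 (grR_disj (j := j) (hv.trans hv'.symm)
        ((DT.mem_strs.1 hw).trans (DT.mem_strs.1 hw').symm) fun h => hne h.1) h1 h2)
  rw [Finset.length_toList, card_strs] at h
  refine le_trans (measureReal_mono ?_ (measure_ne_top _ _)) h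
  intro A hA v hv
  rw [Finset.mem_toList, DT.mem_strs] at hv
  have h1 := hA v hv
  unfold Right
  rw [Set.mem_ofPred_eq, Set.mem_ofPred_eq]
  unfold RtK at h1
  constructor
  · rintro ⟨_, h2⟩ w hw h3
    exact h1.1 h2 w (DT.mem_strs.1 hw) h3
  · intro h2
    exact ⟨hv, h1.2 fun w hw h3 => h2 w (DT.mem_strs.2 hw) h3⟩

/-- the sequence with the instance `v` and the advice -/
noncomputable def stK (j n : ℕ) (d : Fin (k + n) → K) (v : List Bool) : ℤ → K :=
  place ((insR j v).map (bit K) ++ List.ofFn (fun i => d (Fin.natAdd k i)))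

/-- all answers are right, with the constants and the advice `d` -/
def AllK (S : Fin (m + 1) → Instr (Fin k) (m + 1)) (Q A : List Bool → Bool) (T j n : ℕ)
    (d : Fin (k + n) → K) : Prop :=
  ∀ v : List Bool, v.length = j → RtK (fun i => d (Fin.castAdd n i)) S Q A T j (stK j n d) v

end

open Classical in
/-- few events, for all fields over `𝔽` -/
theorem exists_events (𝔽 : Type) [Field 𝔽] (S : Fin (m + 1) → Instr (Fin k) (m + 1))
    (Q : List Bool → Bool) {T j : ℕ} (hT : 2 * T ≤ 2 ^ (2 * j + 1)) (n : ℕ) :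
    ∃ 𝓔 : Finset (Set Oracle),
      𝓔.card ≤ (4 * (2 ^ j * (8 ^ T * (n + 3))) * 2 ^ T + 2) ^ (k + n) ∧
      (∀ E ∈ 𝓔, (indep (fun _ => half)).real E ≤ (1 - 1 / 1024) ^ (2 ^ j / (T + 1))) ∧
      ∀ (K : Type u) [Field K] [Algebra 𝔽 K] (d : Fin (k + n) → K),
        {A : Oracle | AllK S Q A T j n d} ∈ 𝓔 := by
  set M : Fin (m + 1) → Instr (Fin (k + n)) (m + 1) := fun q => ren n (S q) with hM
  set Xs : Finset (List Bool) := (DT.strs j).image (insR j) with hXs
  set F : Finset (MvPolynomial (Fin (k + n)) 𝔽) :=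
    Xs.biUnion (fun w => polK M T 0 (plS (lst 𝔽 k n w)) (V1 𝔽 k n)) with hF
  have hXc : Xs.card ≤ 2 ^ j := by
    refine Finset.card_image_le.trans ?_
    rw [card_strs]
  have hFc : F.card ≤ 2 ^ j * (8 ^ T * (n + 3)) := by
    refine Finset.card_biUnion_le.trans ?_
    refine (Finset.sum_le_card_nsmul _ _ (8 ^ T * (n + 3)) fun w _ => ?_).trans
      (by rw [smul_eq_mul]; exact Nat.mul_le_mul_right _ hXc)
    refine (card_pol M T 0 _ (V1 𝔽 k n)).trans (Nat.mul_le_mul_left _ ?_)
    have := v1_card 𝔽 k n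
    omega
  have hFd : ∀ f ∈ F, f.totalDegree ≤ 2 ^ T := by
    intro f hf
    rw [hF, Finset.mem_biUnion] at hf
    obtain ⟨w, _, hf⟩ := hf
    have := deg_pol M T 0 _ (V1 𝔽 k n) 1 le_rfl (plS_mem 𝔽 k n w) (v1_dg 𝔽 k n) f hf
    simpa using this
  -- the event depends on the zero pattern only
  have hsame : ∀ (K : Type u) [Field K] [Algebra 𝔽 K] (d : Fin (k + n) → K) (K' : Type u)
      [Field K'] [Algebra 𝔽 K'] (d' : Fin (k + n) → K'),
      F.filter (fun f => aeval d f ≠ 0) = F.filter (fun f => aeval d' f ≠ 0) →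
      {A : Oracle | AllK S Q A T j n d} = {A | AllK S Q A T j n d'} := by
    intro K _ _ d K' _ _ d' hpat
    have hz : ∀ f ∈ F, (aeval d f = 0 ↔ aeval d' f = 0) := by
      intro f hf
      have h1 := Finset.ext_iff.1 hpat f
      simp only [Finset.mem_filter, hf, true_and, ne_eq] at h1
      exact not_iff_not.1 h1
    have hrun : ∀ (O : Bool → List Bool → Bool) (v : List Bool), v.length = j →
        run (fun i => d (Fin.castAdd n i)) O S T 0 (stK j n d v) =
        run (fun i => d' (Fin.castAdd n i)) O S T 0 (stK j n d' v) := by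
      intro O v hv
      have hv' : insR j v ∈ Xs := Finset.mem_image_of_mem _ (DT.mem_strs.2 hv)
      have h0 := run_same (c := d) (c' := d') M O T 0 (plS (lst 𝔽 k n (insR j v))) (V1 𝔽 k n)
        (plS_mem 𝔽 k n _) (v1_den k n d) (v1_den k n d') fun f hf => by
          refine hz f ?_
          rw [hF, Finset.mem_biUnion]
          exact ⟨_, hv', hf⟩
      simp only [vl_plS, vl_lst] at h0
      rw [hM, run_ren, run_ren] at h0
      exact h0
    ext A
    refine forall₂_congr fun v hv => ?_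
    unfold RtK
    rw [hrun (two Q A) v hv]
  set P : Finset (Finset (MvPolynomial (Fin (k + n)) 𝔽)) := F.powerset.filter (fun p =>
    ∃ (K : Type u) (_ : Field K) (_ : Algebra 𝔽 K) (c : Fin (k + n) → K),
      p = F.filter (fun f => aeval c f ≠ 0)) with hPd
  have hPc : P.card ≤ (F.card * 2 ^ T + 1) ^ (k + n) :=
    zero_patterns.{u} F (2 ^ T) hFd P fun p hp => (Finset.mem_filter.1 hp).2
  set 𝓢 : Set (Set Oracle) := {E | ∃ (K : Type u) (_ : Field K) (_ : Algebra 𝔽 K)
    (d : Fin (k + n) → K), E = {A : Oracle | AllK S Q A T j n d}} with h𝓢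
  have key : ∀ E ∈ 𝓢, ∃ p, p ∈ P ∧ ∃ (K : Type u) (_ : Field K) (_ : Algebra 𝔽 K)
      (d : Fin (k + n) → K), p = F.filter (fun f => aeval d f ≠ 0) ∧
        E = {A : Oracle | AllK S Q A T j n d} := by
    rintro E ⟨K, i1, i2, d, rfl⟩
    refine ⟨F.filter (fun f => aeval d f ≠ 0), ?_, K, i1, i2, d, rfl, rfl⟩
    rw [hPd, Finset.mem_filter, Finset.mem_powerset]
    exact ⟨Finset.filter_subset _ _, K, i1, i2, d, rfl⟩
  choose! φ hφ using key
  have hinj : Set.InjOn φ 𝓢 := by
    intro E hE E' hE' h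
    obtain ⟨_, K, _, _, d, h1, h2⟩ := hφ E hE
    obtain ⟨_, K', _, _, d', h3, h4⟩ := hφ E' hE'
    rw [h2, h4]
    exact hsame K d K' d' (by rw [← h1, ← h3, h])
  have hfin : 𝓢.Finite := Set.Finite.of_injOn (fun E hE => (hφ E hE).1) hinj P.finite_toSet
  refine ⟨hfin.toFinset, ?_, ?_, ?_⟩
  · have h1 : hfin.toFinset.card ≤ P.card := Finset.card_le_card_of_injOn φ
      (fun E hE => (hφ E (hfin.mem_toFinset.1 hE)).1)
      (fun E hE E' hE' h => hinj (hfin.mem_toFinset.1 hE) (hfin.mem_toFinset.1 hE') h)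
    refine h1.trans (hPc.trans (Nat.pow_le_pow_left ?_ _))
    have h2 := Nat.mul_le_mul_right (2 ^ T) hFc
    have h3 : 4 * (2 ^ j * (8 ^ T * (n + 3))) * 2 ^ T =
        4 * ((2 ^ j * (8 ^ T * (n + 3))) * 2 ^ T) := by ring
    rw [h3]
    omega
  · intro E hE
    obtain ⟨K, _, _, d, rfl⟩ := hfin.mem_toFinset.1 hE
    exact prob_rightK (fun i => d (Fin.castAdd n i)) S Q hT (stK j n d)
  · intro K _ _ d
    exact hfin.mem_toFinset.2 ⟨K, inferInstance, inferInstance, d, rfl⟩

/-- for some field over `𝔽`, some constants and some advice all answers are right -/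
def SomeK (𝔽 : Type) [Field 𝔽] (S : Fin (m + 1) → Instr (Fin k) (m + 1))
    (Q A : List Bool → Bool) (T j n : ℕ) : Prop :=
  ∃ (K : Type u) (_ : Field K) (_ : Algebra 𝔽 K) (d : Fin (k + n) → K), AllK S Q A T j n d

theorem prob_someK (𝔽 : Type) [Field 𝔽] (S : Fin (m + 1) → Instr (Fin k) (m + 1))
    (Q : List Bool → Bool) {T j : ℕ} (hT : 2 * T ≤ 2 ^ (2 * j + 1)) (n : ℕ) :
    (indep (fun _ => half)).real {A | SomeK.{u} 𝔽 S Q A T j n} ≤
        (((4 * (2 ^ j * (8 ^ T * (n + 3))) * 2 ^ T + 2) ^ (k + n) : ℕ) : ℝ) *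
          (1 - 1 / 1024) ^ (2 ^ j / (T + 1)) := by
  obtain ⟨𝓔, h1, h2, h3⟩ := exists_events.{u} 𝔽 S Q hT n
  have hsub : {A : Oracle | SomeK.{u} 𝔽 S Q A T j n} ⊆ ⋃ E ∈ 𝓔, E := by
    rintro A ⟨K, _, _, d, hd⟩
    exact Set.mem_iUnion₂.2 ⟨_, h3 K d, hd⟩
  refine (measureReal_mono hsub (measure_ne_top _ _)).trans ?_
  refine (measureReal_biUnion_finset_le _ _).trans ?_
  refine (Finset.sum_le_card_nsmul _ _ _ h2).trans ?_
  rw [nsmul_eq_mul]
  exact mul_le_mul_of_nonneg_right (Nat.cast_le.2 h1) (by norm_num)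

theorem ae_codeK (𝔽 : Type) [Field 𝔽] (S : Fin (m + 1) → Instr (Fin k) (m + 1))
    (Q : List Bool → Bool) : ∀ᵐ A ∂(indep (fun _ => half)), ∀ᶠ i : ℕ in Filter.atTop,
      ¬ ∃ n : ℕ, n ≤ 2 ^ i ∧ SomeK.{u} 𝔽 S Q A (2 ^ i) (4 * i) n := by
  have hs : ∑' i, (indep (fun _ => half)) (if k + 16 ≤ i then {A | ∃ n : ℕ, n ≤ 2 ^ i ∧
      SomeK.{u} 𝔽 S Q A (2 ^ i) (4 * i) n} else ∅) ≠ ⊤ := by
    have hsum : Summable (fun i : ℕ => 2 * (1 / 2 : ℝ) ^ i) :=
      (summable_geometric_of_lt_one (by norm_num) (by norm_num)).mul_left 2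
    refine ne_top_of_le_ne_top hsum.tsum_ofReal_ne_top (ENNReal.tsum_le_tsum fun i => ?_)
    split_ifs with hi
    · rw [← ENNReal.ofReal_toReal (measure_ne_top (indep (fun _ => half)) _)]
      apply ENNReal.ofReal_le_ofReal
      have hsub : {A : Oracle | ∃ n : ℕ, n ≤ 2 ^ i ∧ SomeK.{u} 𝔽 S Q A (2 ^ i) (4 * i) n} ⊆
          ⋃ n ∈ Finset.range (2 ^ i + 1), {A | SomeK.{u} 𝔽 S Q A (2 ^ i) (4 * i) n} := by
        rintro A ⟨n, hn, h⟩
        exact Set.mem_iUnion₂.2 ⟨n, Finset.mem_range.2 (by omega), h⟩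
      refine (measureReal_mono hsub (measure_ne_top _ _)).trans ?_
      refine (measureReal_biUnion_finset_le _ _).trans ?_
      refine (Finset.sum_le_card_nsmul _ _ ((1 / 4 : ℝ) ^ i) fun n hn => ?_).trans ?_
      · rw [Finset.mem_range] at hn
        refine le_trans (prob_someK 𝔽 S Q ?_ n) (boundX k i n hi (by omega))
        rw [← pow_succ']
        exact Nat.pow_le_pow_right (by norm_num) (by omega)
      · rw [nsmul_eq_mul, Finset.card_range]
        push_cast
        have h1 : (1 : ℝ) ≤ 2 ^ i := one_le_pow₀ (by norm_num)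
        have h2 : ((2 : ℝ) ^ i + 1) * (1 / 4) ^ i ≤ (2 * 2 ^ i) * (1 / 4) ^ i :=
          mul_le_mul_of_nonneg_right (by linarith) (by positivity)
        refine h2.trans (le_of_eq ?_)
        rw [mul_assoc, ← mul_pow]
        norm_num
    · simp
  filter_upwards [ae_eventually_notMem hs] with A hA
  filter_upwards [hA, Filter.eventually_ge_atTop (k + 16)] with i h1 h2
  rw [if_pos h2] at h1
  exact h1

theorem core (𝔽 : Type) [Field 𝔽] {K : Type u} [Field K] [Algebra 𝔽 K] (M : Machine K)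
    (Q A : List Bool → Bool) {i : ℕ} (hi : ¬ ∃ n : ℕ, n ≤ 2 ^ i ∧
      SomeK.{u} 𝔽 (fun q => (M.prog q).sh q) Q A (2 ^ i) (4 * i) n) (a : List K)
    (ha : a.length ≤ 2 ^ i) : ∃ w : List Bool, w.length = 8 * i + 1 ∧
        ¬ ∃ b : Bool, M.answer Q A (2 ^ i) (w.map (bit K) ++ a) = some b ∧
          (b = true ↔ w.map (bit K) ∈ langK K A) := by
  by_contra hcon
  push Not at hcon
  apply hi
  suffices hall : AllK (fun q => (M.prog q).sh q) Q A (2 ^ i) (4 * i) a.length
      (Fin.append (fun q => (M.prog q).cst) (fun j => a[j])) from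
    ⟨a.length, ha, K, inferInstance, inferInstance, _, hall⟩
  intro v hv
  have hl : (insR (4 * i) v).length = 8 * i + 1 := by
    simp [insR, hv]
    omega
  obtain ⟨b, h1, h2⟩ := hcon _ hl
  unfold RtK stK
  simp only [Fin.append_left, Fin.append_right]
  have h3 : List.ofFn (fun j : Fin a.length => a[j]) = a := List.ofFn_getElem
  rw [h3, run_sh]
  unfold Machine.answer at h1
  rw [h1, Option.some.injEq]
  have h4 : b = false ↔ ¬ (b = true) := by cases b <;> simp
  rw [h4, h2, insK_mem A hv]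
  push Not
  rfl

/-- **The separation, for all fields, for machines with advice.** -/
theorem ae_advice (Q : List Bool → Bool) : ∀ᵐ A ∂(indep (fun _ => half)),
    ∀ (K : Type u) [Field K] (M : Machine K), ∀ᶠ i : ℕ in Filter.atTop,
      ∀ a : List K, a.length ≤ 2 ^ i → ∃ w : List Bool, w.length = 8 * i + 1 ∧
        ¬ ∃ b : Bool, M.answer Q A (2 ^ i) (w.map (bit K) ++ a) = some b ∧
          (b = true ↔ w.map (bit K) ∈ langK K A) := by
  have h : ∀ (𝔽 : Type) [Field 𝔽], ∀ᵐ A ∂(indep (fun _ => half)), ∀ (k m : ℕ)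
      (S : Fin (m + 1) → Instr (Fin k) (m + 1)), ∀ᶠ i : ℕ in Filter.atTop,
      ¬ ∃ n : ℕ, n ≤ 2 ^ i ∧ SomeK.{u} 𝔽 S Q A (2 ^ i) (4 * i) n := by
    intro 𝔽 _
    rw [ae_all_iff]
    intro k
    rw [ae_all_iff]
    intro m
    rw [ae_all_iff]
    intro S
    exact ae_codeK 𝔽 S Q
  have hp : ∀ᵐ A ∂(indep (fun _ => half)), ∀ p : Nat.Primes,
      (let _ : Fact p.1.Prime := ⟨p.2⟩; ∀ (k m : ℕ)
      (S : Fin (m + 1) → Instr (Fin k) (m + 1)), ∀ᶠ i : ℕ in Filter.atTop,
      ¬ ∃ n : ℕ, n ≤ 2 ^ i ∧ SomeK.{u} (ZMod p.1) S Q A (2 ^ i) (4 * i) n) := by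
    rw [ae_all_iff]
    intro p
    have : Fact p.1.Prime := ⟨p.2⟩
    exact h (ZMod p.1)
  filter_upwards [h ℚ, hp] with A h0 h1
  intro K _ M
  obtain ⟨p, hpK⟩ := CharP.exists K
  rcases CharP.char_is_prime_or_zero K p with hp' | rfl
  · have : Fact p.Prime := ⟨hp'⟩
    let _ : Algebra (ZMod p) K := ZMod.algebra K p
    filter_upwards [h1 ⟨p, hp'⟩ _ _ (fun q => (M.prog q).sh q)] with i hi
    exact core (ZMod p) M Q A hi
  · have : CharZero K := CharP.charP_to_charZero K
    filter_upwards [h0 _ _ (fun q => (M.prog q).sh q)] with i hi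
    exact core ℚ M Q A hi

/-- The class `P/poly` over `K`, relative to the oracles `Q` and `A`: polynomial time with an advice
vector over `K`, of polynomial length, which depends only on the size of the input. -/
def InPpoly {K : Type u} [Field K] (Q A : List Bool → Bool) (L : Set (List K)) : Prop :=
  ∃ (M : Machine K) (p : Polynomial ℕ) (a : ℕ → List K), (∀ n, (a n).length ≤ p.eval n) ∧
    ∀ x : List K, ∃ b : Bool, M.answer Q A (p.eval x.length) (x ++ a x.length) = some b ∧
      (b = true ↔ x ∈ L)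

end Pool.Agent.TH680.BSK
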