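import Pool.Agent.TH680.BSS.Loc

/-! Machines over fields: the zero patterns of the constants. -/

set_option autoImplicit false

namespace Pool.Agent.TH680.BSK

open Pool.Agent.TH680.BSS MvPolynomial

universe u v

variable {𝔽 : Type} [Field 𝔽] {K : Type u} [Field K] [Algebra 𝔽 K] {K' : Type v} [Field K']
  [Algebra 𝔽 K']

variable {k : ℕ}

/-- symbolic values: numerator and denominator -/
abbrev SyK (𝔽 : Type) [Field 𝔽] (k : ℕ) : Type := MvPolynomial (Fin k) 𝔽 × MvPolynomial (Fin k) 𝔽

/-- the value -/
noncomputable def vlK (c : Fin k → K) (s : SyK 𝔽 k) : K := aeval c s.1 / aeval c s.2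

/-- the operations -/
noncomputable def sopK : Op → SyK 𝔽 k → SyK 𝔽 k → SyK 𝔽 k
  | .add, s, s' => (s.1 * s'.2 + s'.1 * s.2, s.2 * s'.2)
  | .sub, s, s' => (s.1 * s'.2 - s'.1 * s.2, s.2 * s'.2)
  | .mul, s, s' => (s.1 * s'.1, s.2 * s'.2)
  | .div, s, s' => (s.1 * s'.2, s.2 * s'.1)

theorem vl_sopK {c : Fin k → K} {s s' : SyK 𝔽 k} (h : aeval c s.2 ≠ 0) (h' : aeval c s'.2 ≠ 0) (o : Op)
    (h0 : aeval c s'.1 ≠ 0) : vlK c (sopK o s s') = o.ev (vlK c s) (vlK c s') ∧
      aeval c (sopK o s s').2 ≠ 0 := by
  cases o <;> simp only [sopK, vlK, Op.ev, map_add, map_sub, map_mul]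
  · refine ⟨?_, mul_ne_zero h h'⟩
    field_simp
  · refine ⟨?_, mul_ne_zero h h'⟩
    field_simp
  · refine ⟨?_, mul_ne_zero h h'⟩
    field_simp
  · refine ⟨?_, mul_ne_zero h h0⟩
    field_simp

/-- the operation if the second argument is zero -/
noncomputable def sop0K : Op → SyK 𝔽 k → SyK 𝔽 k
  | .add, s => s
  | .sub, s => s
  | .mul, _ => (C 0, 1)
  | .div, _ => (C 0, 1)

theorem vl_sop0K {c : Fin k → K} {s s' : SyK 𝔽 k} (h : aeval c s.2 ≠ 0) (o : Op)
    (h0 : aeval c s'.1 = 0) : vlK c (sop0K o s) = o.ev (vlK c s) (vlK c s') ∧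
      aeval c (sop0K o s).2 ≠ 0 := by
  cases o <;> simp [sop0K, vlK, Op.ev, h0, h]

open Classical in
/-- the polynomials whose signs determine the run -/
noncomputable def polK {m : ℕ} (M : Fin m → Instr (Fin k) m) :
    ℕ → Fin m → (ℤ → SyK 𝔽 k) → Finset (SyK 𝔽 k) → Finset (MvPolynomial (Fin k) 𝔽)
  | 0, _, _, _ => ∅
  | t + 1, q, σ, V => match M q with
      | .op o i j l q' => insert (σ l).1
          (polK M t q' (Function.update σ i (sop0K o (σ j))) (insert (sop0K o (σ j)) V) ∪
            polK M t q' (Function.update σ i (sopK o (σ j) (σ l))) (insert (sopK o (σ j) (σ l)) V))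
      | .const a i q' => polK M t q' (Function.update σ i (X a, 1)) (insert (X a, 1) V)
      | .copy i j q' => polK M t q' (Function.update σ i (σ j)) V
      | .shift s q' => polK M t q' (fun z => σ (z + s)) V
      | .test i yes no => insert (σ i).1 (polK M t yes σ V ∪ polK M t no σ V)
      | .ask _ yes no => (V.image (fun s => s.1) ∪ V.image (fun s => s.1 - s.2)) ∪
          (polK M t yes σ V ∪ polK M t no σ V)
      | .halt _ => ∅

/-- the same zeros -/
def SS (c : Fin k → K) (c' : Fin k → K') (F : Finset (MvPolynomial (Fin k) 𝔽)) : Prop :=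
  ∀ f ∈ F, aeval c f = 0 ↔ aeval c' f = 0

theorem vl_zero {c : Fin k → K} {s : SyK 𝔽 k} (h : aeval c s.2 ≠ 0) : vlK c s = 0 ↔ aeval c s.1 = 0 := by
  unfold vlK
  rw [div_eq_zero_iff]
  simp [h]

theorem vl_one {c : Fin k → K} {s : SyK 𝔽 k} (h : aeval c s.2 ≠ 0) :
    vlK c s = 1 ↔ aeval c (s.1 - s.2) = 0 := by
  unfold vlK
  rw [div_eq_one_iff_eq h, map_sub, sub_eq_zero]

theorem update_vl (c : Fin k → K) (σ : ℤ → SyK 𝔽 k) (i : ℤ) (s : SyK 𝔽 k) :
    Function.update (fun z => vlK c (σ z)) i (vlK c s) = fun z => vlK c (Function.update σ i s z) := by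
  funext z
  by_cases h : z = i
  · subst h
    simp
  · simp [h]

theorem mem_update {σ : ℤ → SyK 𝔽 k} {V : Finset (SyK 𝔽 k)} (h : ∀ z, σ z ∈ V) (i : ℤ) (s : SyK 𝔽 k)
    [DecidableEq (SyK 𝔽 k)] : ∀ z, Function.update σ i s z ∈ insert s V := by
  intro z
  by_cases hz : z = i
  · subst hz
    simp
  · rw [Function.update_of_ne hz]
    exact Finset.mem_insert_of_mem (h z)

open Classical in
/-- **The signs of the polynomials determine the run.** -/
theorem run_same {m : ℕ} (M : Fin m → Instr (Fin k) m) {c : Fin k → K} {c' : Fin k → K'}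
    (O : Bool → List Bool → Bool) : ∀ (t : ℕ) (q : Fin m) (σ : ℤ → SyK 𝔽 k) (V : Finset (SyK 𝔽 k)),
      (∀ z, σ z ∈ V) → (∀ s ∈ V, aeval c s.2 ≠ 0) → (∀ s ∈ V, aeval c' s.2 ≠ 0) →
      SS c c' (polK M t q σ V) →
      run c O M t q (fun z => vlK c (σ z)) = run c' O M t q (fun z => vlK c' (σ z)) := by
  intro t
  induction t with
  | zero => intro q σ V _ _ _ _; rfl
  | succ t ih =>
    intro q σ V hσ hc hc' hS
    simp only [run, polK] at hS ⊢
    cases hq : M q with
    | op o i j l q' =>
      rw [hq] at hS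
      simp only at hS ⊢
      have h1 := (hS _ (Finset.mem_insert_self _ _))
      by_cases h0 : aeval c (σ l).1 = 0
      · have e1 := vl_sop0K (s' := σ l) (hc _ (hσ j)) o h0
        have e2 := vl_sop0K (s' := σ l) (hc' _ (hσ j)) o (h1.1 h0)
        rw [← e1.1, ← e2.1, update_vl, update_vl]
        refine ih q' _ _ (mem_update hσ i _) ?_ ?_ fun f hf => hS f
          (Finset.mem_insert_of_mem (Finset.mem_union_left _ hf))
        · intro s hs
          rcases Finset.mem_insert.1 hs with rfl | hs
          · exact e1.2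
          · exact hc s hs
        · intro s hs
          rcases Finset.mem_insert.1 hs with rfl | hs
          · exact e2.2
          · exact hc' s hs
      · have e1 := vl_sopK (hc _ (hσ j)) (hc _ (hσ l)) o h0
        have e2 := vl_sopK (hc' _ (hσ j)) (hc' _ (hσ l)) o (fun h2 => h0 (h1.2 h2))
        rw [← e1.1, ← e2.1, update_vl, update_vl]
        refine ih q' _ _ (mem_update hσ i _) ?_ ?_ fun f hf => hS f
          (Finset.mem_insert_of_mem (Finset.mem_union_right _ hf))
        · intro s hs
          rcases Finset.mem_insert.1 hs with rfl | hs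
          · exact e1.2
          · exact hc s hs
        · intro s hs
          rcases Finset.mem_insert.1 hs with rfl | hs
          · exact e2.2
          · exact hc' s hs
    | const a i q' =>
      rw [hq] at hS
      simp only at hS ⊢
      have e : c a = vlK (𝔽 := 𝔽) c (X a, 1) := by simp [vlK]
      have e' : c' a = vlK (𝔽 := 𝔽) c' (X a, 1) := by simp [vlK]
      rw [e, e', update_vl, update_vl]
      refine ih q' _ _ (mem_update hσ i _) ?_ ?_ hS
      · intro s hs
        rcases Finset.mem_insert.1 hs with rfl | hs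
        · simp
        · exact hc s hs
      · intro s hs
        rcases Finset.mem_insert.1 hs with rfl | hs
        · simp
        · exact hc' s hs
    | copy i j q' =>
      rw [hq] at hS
      simp only at hS ⊢
      rw [update_vl, update_vl]
      refine ih q' _ _ (fun z => ?_) hc hc' hS
      by_cases hz : z = i
      · subst hz
        rw [Function.update_self]
        exact hσ j
      · rw [Function.update_of_ne hz]
        exact hσ z
    | shift s q' =>
      rw [hq] at hS
      simp only at hS ⊢
      exact ih q' (fun z => σ (z + s)) V (fun z => hσ _) hc hc' hS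
    | test i yes no =>
      rw [hq] at hS
      simp only at hS ⊢
      have h1 := hS _ (Finset.mem_insert_self _ _)
      refine if_congr ?_ ?_ ?_
      · rw [vl_zero (hc _ (hσ i)), vl_zero (hc' _ (hσ i))]
        exact h1
      · exact ih yes σ V hσ hc hc' fun f hf => hS f
          (Finset.mem_insert_of_mem (Finset.mem_union_left _ hf))
      · exact ih no σ V hσ hc hc' fun f hf => hS f
          (Finset.mem_insert_of_mem (Finset.mem_union_right _ hf))
    | ask b yes no =>
      rw [hq] at hS
      simp only at hS ⊢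
      have z0 : ∀ z, vlK c (σ z) = 0 ↔ vlK c' (σ z) = 0 := by
        intro z
        rw [vl_zero (hc _ (hσ z)), vl_zero (hc' _ (hσ z))]
        exact (hS _ (Finset.mem_union_left _ (Finset.mem_union_left _
          (Finset.mem_image_of_mem _ (hσ z)))))
      have z1 : ∀ z, vlK c (σ z) = 1 ↔ vlK c' (σ z) = 1 := by
        intro z
        rw [vl_one (hc _ (hσ z)), vl_one (hc' _ (hσ z))]
        exact (hS _ (Finset.mem_union_left _ (Finset.mem_union_right _
          (Finset.mem_image_of_mem (fun s : SyK 𝔽 k => s.1 - s.2) (hσ z)))))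
      have zb : ∀ z (a : Bool), vlK c (σ z) = bit K a ↔ vlK c' (σ z) = bit K' a := by
        intro z a
        cases a
        · simpa [bit] using z0 z
        · simpa [bit] using z1 z
      refine if_congr ?_ ?_ ?_
      · refine exists_congr fun w => and_congr_left fun _ => ?_
        unfold Reads
        simp only [List.length_map, List.getElem_map, ne_eq, z0, zb]
      · exact ih yes σ V hσ hc hc' fun f hf => hS f
          (Finset.mem_union_right _ (Finset.mem_union_left _ hf))
      · exact ih no σ V hσ hc hc' fun f hf => hS f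
          (Finset.mem_union_right _ (Finset.mem_union_right _ hf))
    | halt b => rfl

end Pool.Agent.TH680.BSK
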