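import Pool.Agent.TH680.BSK.Qs
import Pool.Agent.TH680.BSS.Ver
import Pool.Agent.TH680.BSR.Cls

/-! A nondeterministic machine over fields. -/

set_option autoImplicit false

namespace Pool.Agent.TH680.BSK

open Pool.Agent.TH680.BSS
open Pool.Agent.TH680.BSR (insR pf grR card_pf card_grR mem_grR grR_disj)

universe u v

variable {K : Type u} [Field K]

theorem ag_update {x : ℤ → K} {l : List K} (h : Ag x l) {i : ℤ} (hi : i ≤ 0) (a : K) :
    Ag (Function.update x i a) l := by
  intro z hz
  rw [Function.update_of_ne (by omega)]
  exact h z hz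

theorem ag_cons {x : ℤ → K} {l : List K} (h : Ag x l) (a : K) :
    Ag (fun z => Function.update (Function.update x (-1) 1) 0 a (z + -2)) (a :: l) := by
  intro z hz
  show Function.update (Function.update x (-1) 1) 0 a (z + -2) = _
  by_cases h1 : z = 1
  · subst h1
    rw [place_one, Function.update_of_ne (by omega)]
    simp
  · by_cases h2 : z = 2
    · subst h2
      rw [place_two]
      simp
    · rw [Function.update_of_ne (by omega), Function.update_of_ne (by omega)]
      obtain ⟨y, rfl⟩ : ∃ y, z = y + 2 := ⟨z - 2, by ring⟩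
      rw [place_shift a l (by omega)]
      have : y + 2 + -2 = y := by ring
      rw [this]
      exact h y (by omega)

/-- the program of the machine -/
def vk (K : Type u) [Field K] : Fin 13 → Instr K 13 := ![
  /- 0 -/ .test 1 12 1,
  /- 1 -/ .ask true 2 12,
  /- 2 -/ .test 2 3 9,
  /- 3 -/ .shift 2 4,
  /- 4 -/ .const 1 (-1) 5,
  /- 5 -/ .const 1 0 6,
  /- 6 -/ .shift (-2) 7,
  /- 7 -/ .ask true 8 12,
  /- 8 -/ .shift 2 0,
  /- 9 -/ .shift 2 10,
  /- 10 -/ .ask true 11 12,
  /- 11 -/ .halt true,
  /- 12 -/ .halt false]

/-- the machine: ask whether the vector is in the oracle; delete the first letter; if it was `0`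
then ask whether the vector with the first letter `1` instead is in the oracle, and repeat all this
without the first letter; else ask once more -/
def verK (K : Type u) [Field K] : Machine K := ⟨12, vk K⟩

/-- the condition which it decides -/
def Gd (A : List Bool → Bool) : List K → Prop
  | [] => False
  | a :: l => boo A (a :: l) ∧ ((a = 0 → boo A (1 :: l) ∧ Gd A l) ∧ (a ≠ 0 → boo A l))

theorem step_const {C : Type v} {m : ℕ} {c : C → K} {O : Bool → List Bool → Bool}
    {M : Fin m → Instr C m} {t : ℕ} {q : Fin m} {x : ℤ → K} {a : C} {i : ℤ} {n : Fin m}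
    (h : M q = .const a i n) :
    run c O M (t + 1) q x = run c O M t n (Function.update x i (c a)) := by
  simp only [run, h]

open Classical in
theorem vk_run (Q A : List Bool → Bool) (l : List K) : ∀ (x : ℤ → K), Ag x l →
    run id (two Q A) (vk K) (9 * l.length + 6) 0 x = some (decide (Gd A l)) := by
  induction l with
  | nil =>
    intro x h
    have e := h 1 le_rfl
    rw [place_nil] at e
    rw [show 9 * ([] : List K).length + 6 = 4 + 1 + 1 from rfl,
      step_yes (rfl : vk K 0 = .test 1 12 1) e, step_halt (rfl : vk K 12 = .halt false),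
      decide_eq_false (p := Gd A ([] : List K)) (fun h => h)]
  | cons a l ih =>
    intro x h
    have e1 := h 1 le_rfl
    rw [place_one] at e1
    have e2 := h 2 (by omega)
    rw [place_two] at e2
    have e3 : 9 * (a :: l).length + 6 = 9 * l.length + 6 + 7 + 1 + 1 := by
      simp only [List.length_cons]
      ring
    rw [e3, step_no (rfl : vk K 0 = .test 1 12 1) (by rw [e1]; exact one_ne_zero)]
    by_cases h1 : boo A (a :: l)
    · rw [step_ask_yes (rfl : vk K 1 = .ask true 2 12) ((h.ask Q A).2 h1)]
      by_cases h2 : a = 0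
      · have e5 : 9 * l.length + 6 + 7 = 9 * l.length + 6 + 1 + 1 + 1 + 1 + 1 + 1 + 1 := rfl
        rw [e5, step_yes (rfl : vk K 2 = .test 2 3 9) (by rw [e2, h2]),
          step_shift (rfl : vk K 3 = .shift 2 4), step_const (rfl : vk K 4 = .const 1 (-1) 5),
          step_const (rfl : vk K 5 = .const 1 0 6), step_shift (rfl : vk K 6 = .shift (-2) 7)]
        have ha4 := h.shift
        have ha5 := ag_cons ha4 1
        simp only [id]
        by_cases h3 : boo A ((1 : K) :: l)
        · rw [step_ask_yes (rfl : vk K 7 = .ask true 8 12) ((ha5.ask Q A).2 h3),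
            step_shift (rfl : vk K 8 = .shift 2 0), ih _ ha5.shift]
          congr 1
          rw [decide_eq_decide]
          constructor
          · exact fun h4 => ⟨h1, fun _ => ⟨h3, h4⟩, fun h5 => absurd h2 h5⟩
          · exact fun h4 => (h4.2.1 h2).2
        · rw [step_ask_no (rfl : vk K 7 = .ask true 8 12) fun h4 => h3 ((ha5.ask Q A).1 h4)]
          have e6 : 9 * l.length + 6 + 1 = (9 * l.length + 6) + 1 := rfl
          rw [e6, step_halt (rfl : vk K 12 = .halt false)]
          have h4 : ¬ Gd A (a :: l) := fun h4 => h3 (h4.2.1 h2).1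
          simp [h4]
      · have e5 : 9 * l.length + 6 + 7 = 9 * l.length + 6 + 4 + 1 + 1 + 1 := rfl
        rw [e5, step_no (rfl : vk K 2 = .test 2 3 9) (by rw [e2]; exact h2),
          step_shift (rfl : vk K 9 = .shift 2 10)]
        by_cases h3 : boo A l
        · rw [step_ask_yes (rfl : vk K 10 = .ask true 11 12) ((h.shift.ask Q A).2 h3),
            show 9 * l.length + 6 + 4 = 9 * l.length + 6 + 3 + 1 from rfl,
            step_halt (rfl : vk K 11 = .halt true)]
          have h4 : Gd A (a :: l) := ⟨h1, fun h4 => absurd h4 h2, fun _ => h3⟩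
          simp [h4]
        · rw [step_ask_no (rfl : vk K 10 = .ask true 11 12) fun h4 => h3 ((h.shift.ask Q A).1 h4),
            show 9 * l.length + 6 + 4 = 9 * l.length + 6 + 3 + 1 from rfl,
            step_halt (rfl : vk K 12 = .halt false)]
          have h4 : ¬ Gd A (a :: l) := fun h4 => h3 (h4.2.2 h2)
          simp [h4]
    · rw [step_ask_no (rfl : vk K 1 = .ask true 2 12) fun h4 => h1 ((h.ask Q A).1 h4)]
      have e4 : 9 * l.length + 6 + 7 = 9 * l.length + 6 + 6 + 1 := rfl
      rw [e4, step_halt (rfl : vk K 12 = .halt false)]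
      have h4 : ¬ Gd A (a :: l) := fun h4 => h1 h4.1
      simp [h4]

open Classical in
theorem verK_answer (Q A : List Bool → Bool) (l : List K) :
    (verK K).answer Q A (9 * l.length + 6) l = some (decide (Gd A l)) :=
  vk_run Q A l _ (ag_place l)

/-- the problem -/
def langK (K : Type u) [Field K] (A : List Bool → Bool) : Set (List K) :=
  {x | ∃ y : List K, y.length = x.length ∧ Gd A (x ++ y)}

theorem langK_inNP (Q A : List Bool → Bool) : InNP Q A (langK K A) := by
  classical
  refine ⟨verK K, Polynomial.X, 9 * Polynomial.X + 6, fun z => ⟨decide (Gd A z), ?_⟩,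
    fun x => ?_⟩
  · have := verK_answer Q A z
    simpa using this
  · unfold langK
    rw [Set.mem_ofPred_eq, Polynomial.eval_X]
    refine exists_congr fun y => and_congr_right fun _ => ?_
    have h1 : (9 * Polynomial.X + 6 : Polynomial ℕ).eval (x ++ y).length =
        9 * (x ++ y).length + 6 := by simp
    rw [h1, verK_answer]
    simp

theorem gd_iff (A : List Bool → Bool) (l : List K) (j : ℕ) :
    Gd A (List.replicate j 0 ++ 1 :: l) ↔
      (∀ i ≤ j, boo A (List.replicate i (0 : K) ++ 1 :: l)) ∧
      (∀ i < j, boo A (1 :: (List.replicate i (0 : K) ++ 1 :: l))) ∧ boo A l := by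
  induction j with
  | zero =>
    simp only [List.replicate_zero, List.nil_append, Gd, one_ne_zero, false_imp_iff, ne_eq,
      not_false_eq_true, true_imp_iff, true_and, Nat.not_lt_zero, implies_true]
    refine and_congr_left' ⟨fun h i hi => ?_, fun h => ?_⟩
    · obtain rfl : i = 0 := by omega
      exact h
    · exact h 0 le_rfl
  | succ j ih =>
    rw [List.replicate_succ, List.cons_append, Gd, ih]
    simp only [true_imp_iff, ne_eq, not_true_eq_false, false_imp_iff, and_true]
    constructor
    · rintro ⟨h1, h4, h2, h5, h3⟩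
      refine ⟨fun i hi => ?_, fun i hi => ?_, h3⟩
      · rcases Nat.lt_or_ge i (j + 1) with h6 | h6
        · exact h2 i (by omega)
        · obtain rfl : i = j + 1 := by omega
          rw [List.replicate_succ, List.cons_append]
          exact h1
      · rcases Nat.lt_or_ge i j with h6 | h6
        · exact h5 i h6
        · obtain rfl : i = j := by omega
          exact h4
    · rintro ⟨h1, h2, h3⟩
      refine ⟨?_, h2 j (by omega), fun i hi => h1 i (by omega), fun i hi => h2 i (by omega), h3⟩
      have := h1 (j + 1) le_rfl
      rwa [List.replicate_succ, List.cons_append] at this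

theorem insK_mem (A : List Bool → Bool) {j : ℕ} {v : List Bool} (hv : v.length = j) :
    (insR j v).map (bit K) ∈ langK K A ↔
      ∃ w : List Bool, w.length = 2 * j + 1 ∧ ∀ z ∈ grR j v w, A z = true := by
  have h0 : ∀ y : List K, (insR j v).map (bit K) ++ y =
      List.replicate j 0 ++ 1 :: (v.map (bit K) ++ y) := by
    intro y
    simp [insR, bit]
  have h1 : ∀ (i : ℕ) (w : List Bool), List.replicate i (0 : K) ++
      1 :: (v.map (bit K) ++ w.map (bit K)) =
      ((List.replicate i false ++ [true]) ++ (v ++ w)).map (bit K) := by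
    intro i w
    simp [bit]
  have h2 : ∀ (i : ℕ) (w : List Bool), (1 : K) :: (List.replicate i (0 : K) ++
      1 :: (v.map (bit K) ++ w.map (bit K))) =
      ((true :: (List.replicate i false ++ [true])) ++ (v ++ w)).map (bit K) := by
    intro i w
    simp [bit]
  have hl : (insR j v).length = 2 * j + 1 := by
    simp [insR, hv]
    omega
  unfold langK
  rw [Set.mem_ofPred_eq]
  simp only [List.length_map, hl, h0, gd_iff]
  constructor
  · rintro ⟨y, hy, h3, h4, w₀, h5, h6⟩
    -- the witness is Boolean
    obtain ⟨w, rfl⟩ : ∃ w : List Bool, y = w.map (bit K) := by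
      refine ⟨w₀.drop j, ?_⟩
      have h7 := congrArg (List.drop j) h5
      rw [List.drop_append_of_le_length (by simp [hv]), List.drop_of_length_le (by simp [hv]),
        List.nil_append, ← List.map_drop] at h7
      exact h7
    refine ⟨w, by simpa using hy, fun z hz => ?_⟩
    obtain ⟨u, hu, rfl⟩ := Finset.mem_image.1 hz
    rw [pf, Finset.mem_insert, Finset.mem_union] at hu
    rcases hu with rfl | hu | hu
    · have h7 : (v ++ w).map (bit K) = w₀.map (bit K) := by rw [List.map_append]; exact h5
      rw [List.nil_append, List.map_injective_iff.2 (fun a b hab => bit_inj hab) h7]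
      exact h6
    · obtain ⟨i, hi, rfl⟩ := Finset.mem_image.1 hu
      rw [Finset.mem_range] at hi
      have h7 := h3 i (by omega)
      rwa [h1, boo_map] at h7
    · obtain ⟨i, hi, rfl⟩ := Finset.mem_image.1 hu
      rw [Finset.mem_range] at hi
      have h7 := h4 i hi
      rwa [h2, boo_map] at h7
  · rintro ⟨w, hw, h3⟩
    refine ⟨w.map (bit K), by simpa using hw, fun i hi => ?_, fun i hi => ?_, v ++ w, ?_, ?_⟩
    · rw [h1, boo_map]
      apply h3
      refine Finset.mem_image_of_mem _ ?_
      rw [pf, Finset.mem_insert, Finset.mem_union]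
      exact Or.inr (Or.inl (Finset.mem_image_of_mem _ (Finset.mem_range.2 (by omega))))
    · rw [h2, boo_map]
      apply h3
      refine Finset.mem_image_of_mem _ ?_
      rw [pf, Finset.mem_insert, Finset.mem_union]
      exact Or.inr (Or.inr (Finset.mem_image_of_mem _ (Finset.mem_range.2 hi)))
    · rw [List.map_append]
    · apply h3
      refine Finset.mem_image.2 ⟨[], ?_, by simp⟩
      rw [pf]
      exact Finset.mem_insert_self _ _

theorem gd_boo {A : List Bool → Bool} {l : List K} (h : Gd A l) : boo A l := by
  cases l with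
  | nil => exact absurd h (fun h => h)
  | cons a l => exact h.1

theorem boo_tail {A : List Bool → Bool} {x y : List K} (h : boo A (x ++ y)) :
    ∃ w : List Bool, y = w.map (bit K) := by
  obtain ⟨w, h1, _⟩ := h
  refine ⟨w.drop x.length, ?_⟩
  rw [List.map_drop, ← h1]
  simp

end Pool.Agent.TH680.BSK
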